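import Pool.Agent.Run7.h197.V.Cong

/-!
# MP_f5d5f4_nt: congruences with an arbitrary second curve, and the common multiplicative primes

Let `K ⊆ L` be number fields and `j = F/G` a rational function over `K`, for instance the invariant of
a one-parameter family of elliptic curves.

**Theorem.** For all `M`, `s`, `D`, `q` there is `κ` such that for ALL primes `p`, all `t ∈ K`, all
(moving) targets `a ∈ L ∪ {∞}` such that `|t - a| ≤ H(t)^(-1/M)` (`|t| ≥ H(t)^(1/M)` for `a = ∞`) at some
archimedean place and such that `j` has two poles other than `a`, ALL extensions `P` of `K` of degree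
at most `D`, ALL elliptic curves `E` over `P` with invariant `j(t)` and ALL elliptic curves `E₀` over `P`
with the same `p`-division field as `E` (for example `p`-congruent to `E`): if `T` is a set of at most
`s` primes of `P` which contains all primes not dividing `q` at which both `E` and `E₀` have
potentially multiplicative reduction and `p` does not divide the order of the invariant of `E`, then
`min (p, log H(t)) ≤ (2 + log H(a) + ∑_{w ∈ T} log Nw) ^ κ`.

So if `E` and `E₀` are `p`-congruent then `p` is at most a power of the logarithms of the norms of the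
COMMON primes of potentially multiplicative reduction (in particular, at most a power of the
logarithm of the conductor of `E₀`), unless the height of `E` is bounded in this way. The curve `E₀` is
otherwise arbitrary, both curves, their twists and the field vary, and nothing is assumed on the
relative size of the curves.

Proof. By the local theorem of helper673 (`Pool.Agent.Y673.FM.loc`, which also covers the places
above `p`) `p` divides the order of `j(t)` at the places `w` not above `6` with
`w(j(E)) < 0 ≤ w(j(E₀))`, if `p` is larger than a constant. So, up to factorials, the orders of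
`(t - π)/(t - ρ)` for two poles `π`, `ρ` are divisible by `p` outside of at most `s` places and fixed
ones, and a lower bound for linear forms in logarithms which is sharp in one of the heights and where
all the others are variable (`Run7.h197.BK`, `Run7.h197.V`) applies.
-/

set_option autoImplicit false

open WeierstrassCurve NumberField Height IsDedekindDomain

namespace Pool.Agent.Results.MP_f5d5f4_nt.CommonPrimes

section
variable {P : Type} [Field P]

/-- The curve `y² = x³ + Ax + B` over the field `P`. -/
def curve (A B : P) : WeierstrassCurve P := ⟨0, 0, 0, A, B⟩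

/-- Its `j`-invariant. -/
noncomputable def jInvariant (A B : P) : P := 6912 * A ^ 3 / (4 * A ^ 3 + 27 * B ^ 2)

open scoped Classical in
/-- The group of its points over the algebraic closure of `P`. -/
abbrev Points (A B : P) : Type := ((curve A B).baseChange (AlgebraicClosure P)).toAffine.Point

open scoped Classical in
/-- The action of an automorphism `σ` of the algebraic closure on the points. -/
noncomputable def galois (A B : P) (σ : AlgebraicClosure P ≃ₐ[P] AlgebraicClosure P) :
    Points A B →+ Points A B :=
  WeierstrassCurve.Affine.Point.map (σ : AlgebraicClosure P →ₐ[P] AlgebraicClosure P)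

open scoped Classical in
/-- The curves `y² = x³ + Ax + B` and `y² = x³ + A'x + B'` are `p`-congruent over `P`: some map between
the groups of points restricts to a bijective additive map between the groups of points killed by `p`
which commutes with the Galois group. -/
def Congruent (p : ℕ) (A B A' B' : P) : Prop :=
  ∃ f : Points A B → Points A' B', (∀ Q R, p • Q = 0 → p • R = 0 → f (Q + R) = f Q + f R) ∧
    Set.BijOn f {Q | p • Q = 0} {R | p • R = 0} ∧
    ∀ (σ : AlgebraicClosure P ≃ₐ[P] AlgebraicClosure P) (Q : Points A B), p • Q = 0 →
      f (galois A B σ Q) = galois A' B' σ (f Q)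

open scoped Classical in
/-- The curves have the same `p`-division field over `P`: an automorphism of the algebraic closure
fixes the points killed by `p` of the first curve if and only if it fixes those of the second. -/
def SameDivisionField (p : ℕ) (A B A' B' : P) : Prop :=
  ∀ σ : AlgebraicClosure P ≃ₐ[P] AlgebraicClosure P,
    (∀ Q : Points A B, p • Q = 0 → galois A B σ Q = Q) ↔
      (∀ R : Points A' B', p • R = 0 → galois A' B' σ R = R)

/-- The exponent of the prime ideal `v` in `x ≠ 0`. -/
noncomputable def ord [NumberField P] (v : HeightOneSpectrum (𝓞 P)) (x : P) : ℤ :=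
  -WithZero.log (v.valuation P x)

end

section
variable {K : Type} [Field K]

/-- The point of the complex projective line (`none` is the point at infinity) is a pole of `F/G`. -/
def Pole (F G : Polynomial K) (φ : K →+* ℂ) : Option ℂ → Prop
  | none => G.natDegree < F.natDegree
  | some b => (G.map φ).eval b = 0

/-- `F/G` has two poles different from the point `a`. -/
def TwoPoles (F G : Polynomial K) (φ : K →+* ℂ) (a : Option ℂ) : Prop :=
  ∃ b c : Option ℂ, b ≠ c ∧ b ≠ a ∧ c ≠ a ∧ Pole F G φ b ∧ Pole F G φ c

/-- `|ψ(t) - ψ(a)| ≤ H(t)^(-1/M)`, or `|ψ(t)| ≥ H(t)^(1/M)` for the point `a` at infinity; here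
`H(t)` is the product over all places of `K` of `max(1, |t|_v)`. -/
def Near [NumberField K] {L : Type} [Field L] [NumberField L] [Algebra K L] (ψ : L →+* ℂ) (M : ℕ)
    (t : K) : Option L → Prop
  | none => mulHeight₁ t ≤ ‖ψ (algebraMap K L t)‖ ^ M
  | some a => mulHeight₁ t * ‖ψ (algebraMap K L t) - ψ a‖ ^ M ≤ 1

/-- The height of a point of the projective line. -/
noncomputable def height [NumberField K] : Option K → ℝ
  | none => 1
  | some a => mulHeight₁ a

end

/-- **Congruences near moving targets, with an arbitrary second curve.** Congruent curves have the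
same division field. -/
theorem result :
    (∀ (K : Type) [Field K] [NumberField K] (F G : Polynomial K), IsCoprime F G → G ≠ 0 →
      ∀ (L : Type) [Field L] [NumberField L] [Algebra K L] (q : ℕ), q ≠ 0 → ∀ M s D : ℕ,
      ∃ κ : ℕ, ∀ p : ℕ, p.Prime → ∀ (t : K) (a : Option L) (ψ : L →+* ℂ), G.eval t ≠ 0 →
        TwoPoles F G (ψ.comp (algebraMap K L)) (a.map ψ) → Near ψ M t a →
        ∀ (P : Type) [Field P] [NumberField P] [Algebra K P], Module.finrank K P ≤ D →
        ∀ A B A₀ B₀ : P, 4 * A ^ 3 + 27 * B ^ 2 ≠ 0 → 4 * A₀ ^ 3 + 27 * B₀ ^ 2 ≠ 0 →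
        jInvariant A B = algebraMap K P (F.eval t / G.eval t) →
        SameDivisionField p A B A₀ B₀ →
        ∀ T : Finset (HeightOneSpectrum (𝓞 P)), T.card ≤ s →
        (∀ w : HeightOneSpectrum (𝓞 P), (q : 𝓞 P) ∉ w.asIdeal → ord w (jInvariant A B) < 0 →
          ord w (jInvariant A₀ B₀) < 0 → ¬ (p : ℤ) ∣ ord w (jInvariant A B) → w ∈ T) →
        min (p : ℝ) (Real.log (mulHeight₁ t)) ≤
          (2 + Real.log (height a) + ∑ w ∈ T, Real.log (Ideal.absNorm w.asIdeal)) ^ κ) ∧
    ∀ (P : Type) [Field P] [CharZero P] (p : ℕ) (A B A' B' : P), Congruent p A B A' B' →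
      SameDivisionField p A B A' B' := by
  refine ⟨?_, ?_⟩
  · intro K _ _ F G hcop hG L _ _ _ q hq M s D
    obtain ⟨κ, hκ⟩ := Run7.h197.V.congV F G hcop hG L q hq M s D
    refine ⟨κ, ?_⟩
    intro p hp t a ψ hGt htwo hnear P _ _ _ hPD A B A₀ B₀ hD hD₀ hj hsame T hT hT'
    have h1 : Run7.h197.N.TwoPoles F G (ψ.comp (algebraMap K L)) (a.map ψ) := by
      obtain ⟨b, c, hbc, hb, hc, pb, pc⟩ := htwo
      refine ⟨b, c, hbc, hb, hc, ?_, ?_⟩
      · rcases b with _ | b <;> exact pb
      · rcases c with _ | c <;> exact pc
    have h2 : Run7.h197.V.NearL ψ M t a := by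
      rcases a with _ | a <;> exact hnear
    have h3 : Run7.h197.V.hp a = height a := by
      rcases a with _ | a <;> rfl
    have h4 := hκ p hp t a ψ hGt h1 h2 P hPD A B A₀ B₀ hD hD₀ hj hsame T hT
      (fun w hq1 hwT h5 h6 => by
        by_contra h7
        exact hwT (hT' w hq1 h5 h6 h7))
    rwa [h3] at h4
  · intro P _ _ p A B A' B' ⟨f, h1, h2, h3⟩
    exact Pool.Agent.Y673.FM.sameF_of f h2 h3

end Pool.Agent.Results.MP_f5d5f4_nt.CommonPrimes
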