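import Pool.Agent.Run7.h61.UF.Curves

/-!
# MP_f5d5f4_nt: curves of an integral family are not congruent to curves with integral invariant

Let `K` be a number field and `j = F/G` a rational function over `K` in lowest terms with at least
two different poles at finite distance over `K̄` (for example the invariant of the Legendre family).
Let `N ≥ 1`, and let `S` be the set of primes dividing `N`.

**Theorem.** For all `S`-integers `t` of `K` with finitely many exceptions, ALL primes `p ≥ 13` larger
than the degree of `G`, ALL number fields `L ⊇ K` with `[L : ℚ] < p`, ALL elliptic curves `E` over `L`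
with `j(E) = j(t)` and ALL elliptic curves `E'` over `L` whose invariant is integral at the places
outside of `S` at which `j(t)` is not integral (for example those whose invariant is an `S`-integer),
the fields `L(E[p])` and `L(E'[p])` are different; in particular `E` and `E'` are not `p`-congruent.

The curve `E'` is completely arbitrary otherwise, and both curves vary; the finite set of exceptional
`t` does not depend on `p`, `L`, `E`, `E'`.

Proof. By the local theorem of helper673 (`Pool.Agent.Y673.FM.loc`, which also covers the places
above `p`) `p` divides the order of `j(t)` at every place outside of `6 N` where it is negative. So,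
outside of a finite set of places, `p` divides the orders of `t - x` and `t - y`, for two poles
`x ≠ y`; by the theorem of Schinzel and Tijdeman for `S`-integers of number fields with units
(`Run7.h197.TF.stAll` of helper197) there are only finitely many such `t`, for all `p` together.
-/

set_option autoImplicit false

open WeierstrassCurve NumberField Polynomial IsDedekindDomain

namespace Pool.Agent.Results.MP_f5d5f4_nt.IntegralPoles

section
variable {K : Type} [Field K]

/-- The curve `y² = x³ + Ax + B` over the field `K`. -/
def curve (A B : K) : WeierstrassCurve K := ⟨0, 0, 0, A, B⟩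

/-- Its `j`-invariant. -/
noncomputable def jInvariant (A B : K) : K := 6912 * A ^ 3 / (4 * A ^ 3 + 27 * B ^ 2)

open scoped Classical in
/-- The group of its points over the algebraic closure of `K`. -/
abbrev Points (A B : K) : Type := ((curve A B).baseChange (AlgebraicClosure K)).toAffine.Point

open scoped Classical in
/-- The action of an automorphism `σ` of the algebraic closure on the points. -/
noncomputable def galois (A B : K) (σ : AlgebraicClosure K ≃ₐ[K] AlgebraicClosure K) :
    Points A B →+ Points A B :=
  WeierstrassCurve.Affine.Point.map (σ : AlgebraicClosure K →ₐ[K] AlgebraicClosure K)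

open scoped Classical in
/-- The curves `y² = x³ + Ax + B` and `y² = x³ + A'x + B'` are `p`-congruent over `K`: some map between
the groups of points restricts to a bijective additive map between the groups of points killed by `p`
which commutes with the Galois group. -/
def Congruent (p : ℕ) (A B A' B' : K) : Prop :=
  ∃ f : Points A B → Points A' B', (∀ P Q, p • P = 0 → p • Q = 0 → f (P + Q) = f P + f Q) ∧
    Set.BijOn f {P | p • P = 0} {Q | p • Q = 0} ∧
    ∀ (σ : AlgebraicClosure K ≃ₐ[K] AlgebraicClosure K) (P : Points A B), p • P = 0 →
      f (galois A B σ P) = galois A' B' σ (f P)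

open scoped Classical in
/-- The curves have the same `p`-division field over `K`: an automorphism of the algebraic closure
fixes the points killed by `p` of the first curve if and only if it fixes those of the second. -/
def SameDivisionField (p : ℕ) (A B A' B' : K) : Prop :=
  ∀ σ : AlgebraicClosure K ≃ₐ[K] AlgebraicClosure K,
    (∀ P : Points A B, p • P = 0 → galois A B σ P = P) ↔
      (∀ Q : Points A' B', p • Q = 0 → galois A' B' σ Q = Q)

end

/-- The element `j'` of `L` is integral at all finite places of `L` outside of `N` at which `j` is
not integral. -/
def IntegralAtPoles (L : Type) [Field L] [NumberField L] (N : ℕ) (j j' : L) : Prop :=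
  ∀ w : HeightOneSpectrum (𝓞 L), ((N : ℕ) : 𝓞 L) ∉ w.asIdeal → 1 < w.valuation L j →
    w.valuation L j' ≤ 1

/-- The invariant `j` is exceptional for the prime `p`: over some number field `L ⊇ K` of degree less
than `p` there are a curve with the invariant `j` and a curve whose invariant is integral at all
finite places outside of `N` at which `j` is not integral, with the same `p`-division field. -/
def Exceptional {K : Type} [Field K] (N p : ℕ) (j : K) : Prop :=
  ∃ (L : Type) (_ : Field L) (_ : NumberField L) (_ : Algebra K L) (A B A' B' : L),
    Module.finrank ℚ L < p ∧ 4 * A ^ 3 + 27 * B ^ 2 ≠ 0 ∧ 4 * A' ^ 3 + 27 * B' ^ 2 ≠ 0 ∧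
    jInvariant A B = algebraMap K L j ∧
    IntegralAtPoles L N (jInvariant A B) (jInvariant A' B') ∧ SameDivisionField p A B A' B'

/-- **No congruences with curves of integral invariant.** Congruent curves have the same division
field. -/
theorem result :
    (∀ (K : Type) [Field K] [NumberField K] (F G : K[X]), IsCoprime F G → G ≠ 0 →
      ∀ x y : AlgebraicClosure K, x ≠ y → aeval x G = 0 → aeval y G = 0 → ∀ N : ℕ, N ≠ 0 →
      {t : K | (∃ k : ℕ, _root_.IsIntegral ℤ ((N : K) ^ k * t)) ∧ G.eval t ≠ 0 ∧
        ∃ p : ℕ, p.Prime ∧ 13 ≤ p ∧ G.natDegree < p ∧
          Exceptional N p (F.eval t / G.eval t)}.Finite) ∧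
    ∀ (K : Type) [Field K] [CharZero K] (p : ℕ) (A B A' B' : K), Congruent p A B A' B' →
      SameDivisionField p A B A' B' := by
  refine ⟨?_, ?_⟩
  · intro K _ _ F G hFG hG x y hxy hx hy N hN
    refine (Run7.h61.UF.fam1 F G hG hFG hxy hx hy N hN (6 * N)
      (mul_ne_zero (by norm_num) hN)).subset ?_
    rintro t ⟨ht, hGt, p, hp, hp13, hpd, L, iF, iN, iA, A, B, A', B', hL, hD, hD', hj, hint, hsame⟩
    refine ⟨ht, hGt, p, hp, by omega, hpd, fun v hv6 hv => ?_⟩
    refine Run7.h61.UF.pc_same hN hp hp13 hL hD hD' hsame hj v hv6 (fun w hw1 hw2 _ => ?_) hv
    exact Run7.h61.UF.G0_of w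
      (hint w (Run7.h61.UF.notMem_of w hN hw1) (Run7.h61.UF.neg_iff w hw2))
  · intro K _ _ p A B A' B' ⟨f, h1, h2, h3⟩
    exact Pool.Agent.Y673.FM.sameF_of f h2 h3

end Pool.Agent.Results.MP_f5d5f4_nt.IntegralPoles
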