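import Pool.Agent.Run7.h577.WM

/-!
# MP_f5d5f4_nt: a rate for the Frey-Mazur conjecture for almost all curves, at every level

There are at least `H ^ (5/6) / 9` integral equations `E : y² = x³ + Ax + B` of height
`max (4|A|³, 27B²)` at most `H`.  Let `1 ≤ κ ≤ 9/8` and `ε > 0`.  All but `O(H ^ ((11 + 8κ)/24 + ε))` of them
define elliptic curves `E` with the following two properties.

1. If `E' : y² = x³ + A'x + B'` has height at most `H ^ κ` and `E[n] ≅ E'[n]` as Galois modules for some
   `n ≥ 2`, then `E'` is a quadratic twist of `E`.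
2. If `E'` is a quadratic twist of `E`, of any height, and `E[n] ≅ E'[n]` for some `n` with a prime factor
   `p ≥ 13`, then `E'` is isomorphic to `E`.

For `κ = 1` the exponent is `19/24 + ε`: all but `O(H ^ (19/24 + ε))` elliptic curves of height at most `H` have
no congruence, at any level `n ≥ 2`, with elliptic curves of height at most `H`, except for their twists.
The exponent is smaller than `5/6` for all `κ < 9/8`.

Proof.  Let `D = 4A³ + 27B²`, `D' = 4A'³ + 27B'²` and `S` the product of the primes `q ≥ 5` which divide `D`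
exactly once.  By the local theorem of the library `W275/FML` (inertia at `q`, also for `q ∣ n`) `S` divides
`D'`, for any `n ≥ 2`.  Let `K = H ^ (3/4 - 2κ/3)`.
(a) There are `O(H ^ (5/6 + ε) K ^ (-1/2))` equations with `S ≤ H / K` (`Run7/h577/WJ`): this rests on the count
of the pairs `(c, d)` with `c³ - d²` divisible by `n rad(n)`, `n` large, by representations of numbers by
binary cubic forms (library `Run7/h577/V*`), applied for given `gcd(A, B)` and given twists.
(b) Otherwise `D = S k`, `D' = S w` and `k D' = w D` with `|k| ≤ 31 K`, `|w| ≤ 2 K H ^ (κ - 1)`.  Away from `2`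
and `3` the number `k` is squarefull, so it has `O(K ^ (1/2 + ε))` values.  For given `A`, `A'`, `k`, `w` the
numbers `B`, `B'` are an integral point of the conic `27 (w B² - k B'²) = 4 (k A'³ - w A³)`.  If the right side
is zero then `j(E) = j(E')`; otherwise the conic has `O(H ^ ε)` integral points of the given size.  So there
are `O(H ^ (1/3 + κ/3 + ε) K ^ (3/2) H ^ (κ - 1))` such `E`.
Finally a twist `E' ≠ E` of `E` with `E'[p] ≅ E[p]` is excluded by an element of order `p` in the image of an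
inertia group at a prime factor of `S`.
-/

set_option autoImplicit false

open WeierstrassCurve
open scoped Classical

namespace Pool.Agent.Results.MP_f5d5f4_nt.RateAtEveryLevel

/-- The curve `y² = x³ + Ax + B` over `ℚ`. -/
def curve (A B : ℤ) : WeierstrassCurve ℚ := ⟨0, 0, 0, A, B⟩

/-- The group of its points over the algebraic closure of `ℚ`. -/
abbrev Points (A B : ℤ) : Type := ((curve A B).baseChange (AlgebraicClosure ℚ)).toAffine.Point

/-- The action of an automorphism `σ` of the algebraic closure on the points. -/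
noncomputable def galois (A B : ℤ) (σ : AlgebraicClosure ℚ ≃ₐ[ℚ] AlgebraicClosure ℚ) :
    Points A B →+ Points A B :=
  WeierstrassCurve.Affine.Point.map
    (σ : AlgebraicClosure ℚ →ₐ[ℚ] AlgebraicClosure ℚ)

/-- The `n`-torsion of `y² = x³ + Ax + B` and that of `y² = x³ + A'x + B'` are isomorphic as Galois
modules: some map between the groups of points restricts to a bijective additive map of the
`n`-torsion which commutes with the Galois group. -/
def Congruent (n : ℕ) (A B A' B' : ℤ) : Prop :=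
  ∃ f : Points A B → Points A' B', (∀ P Q, n • P = 0 → n • Q = 0 → f (P + Q) = f P + f Q) ∧
    Set.BijOn f {P | n • P = 0} {Q | n • Q = 0} ∧
    ∀ (σ : AlgebraicClosure ℚ ≃ₐ[ℚ] AlgebraicClosure ℚ) (P : Points A B), n • P = 0 →
      f (galois A B σ P) = galois A' B' σ (f P)

/-- The discriminant, up to the factor `-16`. -/
def disc (A B : ℤ) : ℤ := 4 * A ^ 3 + 27 * B ^ 2

/-- The height of `y² = x³ + Ax + B`. -/
def height (A B : ℤ) : ℤ := max (4 * |A| ^ 3) (27 * B ^ 2)

/-- `y² = x³ + A'x + B'` is a quadratic twist of `y² = x³ + Ax + B` (or isomorphic to it) over `ℚ`. -/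
def IsTwist (A B A' B' : ℤ) : Prop :=
  ∃ δ : ℚ, δ ≠ 0 ∧ (A' : ℚ) = δ ^ 2 * A ∧ (B' : ℚ) = δ ^ 3 * B

/-- `y² = x³ + Ax + B` and `y² = x³ + A'x + B'` are isomorphic over `ℚ`. -/
def Isomorphic (A B A' B' : ℤ) : Prop :=
  ∃ c : ℚ, c ≠ 0 ∧ (A' : ℚ) = c ^ 4 * A ∧ (B' : ℚ) = c ^ 6 * B

/-- `E : y² = x³ + Ax + B` has no congruence, modulo any `n ≥ 2`, with a curve `E'` of height at most
`Z`, except twists, and no congruence, modulo any `n` with a prime factor `p ≥ 13`, with a twist, except the
curves isomorphic to it. -/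
def Separated (Z : ℝ) (A B : ℤ) : Prop :=
  (∀ A' B' : ℤ, disc A' B' ≠ 0 → (height A' B' : ℝ) ≤ Z → ∀ n : ℕ, 2 ≤ n →
    Congruent n A B A' B' → IsTwist A B A' B') ∧
  (∀ A' B' : ℤ, disc A' B' ≠ 0 → IsTwist A B A' B' → ∀ n p : ℕ, p.Prime → 13 ≤ p → p ∣ n →
    Congruent n A B A' B' → Isomorphic A B A' B')

/-- **Theorem.**  Let `1 ≤ κ ≤ 9/8` and `ε > 0`.  All but `C H ^ ((11 + 8κ)/24 + ε)` of the equations
`y² = x³ + Ax + B` of height at most `H` define elliptic curves with `Separated (H ^ κ) A B`; there are at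
least `H ^ (5/6) / 9` equations of height at most `H`. -/
theorem result (κ ε : ℝ) (h1 : 1 ≤ κ) (h2 : κ ≤ 9 / 8) (hε : 0 < ε) : ∃ C : ℝ, ∀ H : ℝ, 1 ≤ H →
    ({p : ℤ × ℤ | (height p.1 p.2 : ℝ) ≤ H ∧
      ¬ (disc p.1 p.2 ≠ 0 ∧ Separated (H ^ κ) p.1 p.2)}.ncard : ℝ) ≤
        C * H ^ ((11 + 8 * κ) / 24 + ε) ∧
    H ^ (5 / 6 : ℝ) / 9 ≤ ({p : ℤ × ℤ | (height p.1 p.2 : ℝ) ≤ H}.ncard : ℝ) := by
  have hsz : ∀ a b : ℤ, Run7.h577.V.Size a b = (height a b : ℝ) := by
    intro a b
    unfold Run7.h577.V.Size height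
    push_cast
    rfl
  obtain ⟨C, -, h⟩ := Run7.h577.W.rate_final κ ε h1 h2 hε
  refine ⟨C, fun H hH => ⟨h H hH _ ?_, ?_⟩⟩
  · rintro p ⟨hp1, hp2⟩
    refine ⟨by rw [hsz]; exact hp1, ?_⟩
    by_cases h0 : disc p.1 p.2 = 0
    · exact Or.inl h0
    right
    by_contra hno
    push Not at hno
    obtain ⟨k1, k2⟩ := hno
    apply hp2
    refine ⟨h0, ?_, ?_⟩
    · intro A' B' g1 g2 n g3 g4
      by_contra g5
      obtain ⟨δ, d0, d1, d2⟩ := k1 A' B' n g1 (by rw [hsz]; exact g2) g3 g4
      exact g5 ⟨δ, d0, d1, d2⟩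
    · rintro A' B' g1 ⟨δ, d0, d1, d2⟩ n q g3 g4 g5 g6
      exact k2 A' B' n q g1 ⟨δ, d0, d1, d2⟩ g3 g4 g5 g6
  · have := Run7.h577.W.total_low H hH
    simp only [hsz] at this
    exact this

end Pool.Agent.Results.MP_f5d5f4_nt.RateAtEveryLevel
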