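import Mathlib
import Pool.Agent.Run7.h795.RV.MeanEx
import Pool.Agent.Run7.h823.WF.Ex
import Pool.Agent.TH894.NJ6
import Pool.Agent.TH4.FZ.Lev

/-!
# No congruences along sparse families of vectors of residues, for instance the first `m ^ ε` terms of linear recurrences
# modulo `m`

Let `E_v : y² = x³ + A(v) x + B(v)` be a polynomial family of elliptic curves with integral parameters `v = (v_1, …, v_r)`
whose discriminant has many exact prime divisors in the mean (`MeanExact`), for example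

* the family `y² = x³ + v_1 x + v_2` of all curves, or
* a one-parameter family with an `I₁` fibre (some irreducible factor of `4A³ + 27B²` has multiplicity one).

For all `β, β', ε > 0` and all `r'`, `d` there is `η > 0` such that for all large `q` and all finite families `y_i`, `i ∈ t`, of
vectors of `r` residues modulo `q` with Fourier coefficients at most `q ^ (-β) |t|` (`Flat`) the following holds for all but
`ε |t|` of the curves `E_v`, `v = c₀ + y_i` (least residues, `c₀` any integral vector):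

1. `E_v` has no congruence at any level `n ≥ 2` with ANY elliptic curve `y² = x³ + a'x + b'`, `a'`, `b'` integers, with
   `|4a'³ + 27b'²| ≤ q ^ η`;
2. for ALL polynomial families `E'_u : y² = x³ + A'(u) x + B'(u)` in `r'` parameters whose discriminant has degree at most `d`
   and a non-zero coefficient of absolute value at most `q ^ η`, for ALL `q' ≥ q` and all families `y'_k`, `k ∈ t'`, of vectors of
   `r'` residues modulo `q'` with Fourier coefficients at most `q' ^ (-β') |t'|`, and all `c₀'`, it has congruences, at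
   whatever level, with at most `q ^ (-η) |t'|` of the curves `E'_u`, `u = c₀' + y'_k`.

Moreover the `n`-torsion is not isomorphic over any number field `L` if `n` has a prime factor `l ≥ 3` with `l > [L : ℚ]`.

The families can be very sparse. Examples, with `β = β(ε, …) > 0`:

* the values `(u_1(n), …, u_r(n))`, `n < N`, of `r` linear recurrences modulo a prime `m` with linearly independent vectors of
  coefficients, as soon as `N ≥ m ^ ε` and the roots and their quotients have orders `≥ m ^ ε`;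
* the vectors `(x_1 b_1 ^ n, …, x_r b_r ^ n)`, `n < N`, `N ≥ m ^ ε`, for fixed different integers `b_j ≥ 2` and all
  `x_j ≠ 0`, modulo all but `C X ^ ε` of the primes `m ≤ X`.

In these examples only `m ^ ε` of the `m ^ r` vectors of the box occur. In the starting file `ThinSequences` the vectors are
the integer parts of generalised polynomials at the integers and the primes of `(N, 2N]`, and there is one target family.

Proof. Families with small Fourier coefficients are well distributed modulo all integers up to a power of `q` (the transfer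
of helper823, `Pool.Agent.Run7.h823.WF`; the Fourier coefficients of short recurrences are estimated by the method of
Bourgain, Glibichuk and Konyagin). By Turan's sieve two primes `q₁ < q₂` in `(q ^ (2η), q ^ κ]` divide the discriminant of
`E_v` exactly once, for almost all `v`. By the local theorems (`Pool.Agent.TH4.FZ.key_bad`, `Pool.Agent.TH894.NJ.no_iso`) a curve
with a congruence with `E_v` has bad reduction at `q₁` or `q₂`, and this is rare in the second family, uniformly.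
-/

set_option autoImplicit false

namespace Pool.Agent.Results.MP_f5d5f4_nt.ResidueVectors

open MvPolynomial
open scoped Classical

/-- The curve `y² = x³ + Ax + B` over `ℚ`. -/
def curve (A B : ℤ) : WeierstrassCurve ℚ := ⟨0, 0, 0, A, B⟩

/-- The group of its points over the algebraic closure of `ℚ`. -/
abbrev Points (A B : ℤ) : Type := ((curve A B).baseChange (AlgebraicClosure ℚ)).toAffine.Point

/-- The action of an automorphism `σ` of the algebraic closure on the points. -/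
noncomputable def galois (A B : ℤ) (σ : AlgebraicClosure ℚ ≃ₐ[ℚ] AlgebraicClosure ℚ) :
    Points A B →+ Points A B :=
  WeierstrassCurve.Affine.Point.map
    (σ : AlgebraicClosure ℚ →ₐ[ℚ] AlgebraicClosure ℚ)

/-- The `n`-torsion of `y² = x³ + Ax + B` and that of `y² = x³ + A'x + B'` are isomorphic as modules over the Galois group of the
field `L`: some map between the groups of points restricts to a bijective additive map of the `n`-torsion which commutes with all
automorphisms of the algebraic closure which fix `L`. -/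
def CongruentOver (L : IntermediateField ℚ (AlgebraicClosure ℚ)) (n : ℕ) (A B A' B' : ℤ) : Prop :=
  ∃ f : Points A B → Points A' B', (∀ P Q, n • P = 0 → n • Q = 0 → f (P + Q) = f P + f Q) ∧
    Set.BijOn f {P | n • P = 0} {Q | n • Q = 0} ∧
    ∀ σ ∈ L.fixingSubgroup, ∀ P : Points A B, n • P = 0 → f (galois A B σ P) = galois A' B' σ (f P)

/-- `y² = x³ + Ax + B` and `y² = x³ + A'x + B'` are elliptic curves, their `n`-torsion is not isomorphic over `ℚ` for any
`n ≥ 2`, and it is not isomorphic over any number field `L`, if `n` has a prime factor `l ≥ 3`, `l > [L : ℚ]`. -/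
def NoCongruence (A B A' B' : ℤ) : Prop :=
  4 * A ^ 3 + 27 * B ^ 2 ≠ 0 ∧ 4 * A' ^ 3 + 27 * B' ^ 2 ≠ 0 ∧
    (∀ n : ℕ, 2 ≤ n → ¬ CongruentOver ⊥ n A B A' B') ∧
    ∀ L : IntermediateField ℚ (AlgebraicClosure ℚ), FiniteDimensional ℚ L → ∀ l : ℕ, l.Prime → 3 ≤ l → Module.finrank ℚ L < l →
      ∀ n : ℕ, l ∣ n → ¬ CongruentOver L n A B A' B'

/-- `D` has many exact prime divisors in the mean: the sum over the primes `q` of `(y, y ^ m]` of the proportion of the vectors
modulo `q ^ 2` at which `D` is divisible by `q` and not by `q ^ 2` is at least `δ log m - C`. -/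
def MeanExact {r : ℕ} (D : MvPolynomial (Fin r) ℤ) : Prop :=
  ∃ (δ C : ℝ) (y₀ : ℕ), 0 < δ ∧ ∀ y : ℕ, y₀ ≤ y → ∀ m : ℕ, 1 ≤ m →
    δ * Real.log m - C ≤ ∑ q ∈ (Finset.Ioc y (y ^ m)).filter Nat.Prime,
      ({ρ : Fin r → ZMod (q ^ 2) | aeval ρ D ≠ 0 ∧ (q : ZMod (q ^ 2)) * aeval ρ D = 0}.ncard : ℝ) / ((q : ℝ) ^ 2) ^ r

/-- The Fourier coefficients of the vectors of residues `y i`, `i ∈ s`, modulo `q` at the nonzero frequencies are at most
`η` times the number of the vectors: `|∑ i ∈ s, e(h·y_i / q)| ≤ η |s|` for all vectors `h ≠ 0` modulo `q`. -/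
def Flat {τ ι : Type} [Fintype ι] (q : ℕ) [NeZero q] (η : ℝ) (s : Finset τ) (y : τ → ι → ZMod q) : Prop :=
  ∀ h : ι → ZMod q, h ≠ 0 → ‖∑ i ∈ s, (ZMod.stdAddChar (∑ j, h j * y i j) : ℂ)‖ ≤ η * s.card

/-- The integral vector `c₀ + y_i`, with the least residues `0 ≤ y_i < q`. -/
def vec {τ ι : Type} {q : ℕ} (y : τ → ι → ZMod q) (c₀ : ι → ℤ) (i : τ) (j : ι) : ℤ := c₀ j + ((y i j).val : ℕ)

/-- `y² = x³ + ax + b` has no congruences with elliptic curves with `|4a'³ + 27b'²| ≤ q ^ η`, and congruences with at most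
`q ^ (-η) |t'|` of the curves `y² = x³ + A'(u) x + B'(u)`, `u = c₀' + y'_k`, `k ∈ t'`, for all families `y'_k` of vectors of `r'`
residues modulo `q' ≥ q` with Fourier coefficients at most `q' ^ (-β') |t'|`, all `c₀'` and all polynomials `A'`, `B'` in `r'`
variables for which `4A'³ + 27B'²` has degree at most `d` and a non-zero coefficient of absolute value at most `q ^ η`. -/
def Good (r' d : ℕ) (β' η : ℝ) (q : ℕ) (a b : ℤ) : Prop :=
  (∀ a' b' : ℤ, 4 * a' ^ 3 + 27 * b' ^ 2 ≠ 0 → ((|4 * a' ^ 3 + 27 * b' ^ 2| : ℤ) : ℝ) ≤ (q : ℝ) ^ η →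
    NoCongruence a b a' b') ∧
  ∀ A' B' : MvPolynomial (Fin r') ℤ, (4 * A' ^ 3 + 27 * B' ^ 2).totalDegree ≤ d →
    (∃ m, (4 * A' ^ 3 + 27 * B' ^ 2).coeff m ≠ 0 ∧ ((|(4 * A' ^ 3 + 27 * B' ^ 2).coeff m| : ℤ) : ℝ) ≤ (q : ℝ) ^ η) →
    ∀ (q' : ℕ) [NeZero q'], q ≤ q' → ∀ (τ' : Type) (t' : Finset τ') (y' : τ' → Fin r' → ZMod q'),
      Flat q' ((q' : ℝ) ^ (-β')) t' y' → ∀ c₀' : Fin r' → ℤ,
      ({k : τ' | k ∈ t' ∧ ¬ NoCongruence a b (eval (vec y' c₀' k) A') (eval (vec y' c₀' k) B')}.ncard : ℝ) ≤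
        (q : ℝ) ^ (-η) * t'.card

/-- Two primes suffice. -/
lemma no_congruence {A B A' B' : ℤ} {q₁ q₂ : ℕ} (hlt : q₁ < q₂) (x1 : Pool.Agent.W275.FM.Ex q₁ A B)
    (x2 : Pool.Agent.W275.FM.Ex q₂ A B) (d1 : ¬ (q₁ : ℤ) ∣ Pool.Agent.W275.FM.dsc A' B')
    (d2 : ¬ (q₂ : ℤ) ∣ Pool.Agent.W275.FM.dsc A' B') : NoCongruence A B A' B' := by
  have h0 : Pool.Agent.W275.FM.dsc A B ≠ 0 := by
    intro h0
    apply x1.2.2.2
    rw [h0]
    exact dvd_zero _
  have h0' : Pool.Agent.W275.FM.dsc A' B' ≠ 0 := by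
    intro h0
    apply d1
    rw [h0]
    exact dvd_zero _
  refine ⟨h0, h0', ?_, ?_⟩
  · rintro n hn ⟨f, h1, h2, h3⟩
    have hT : Pool.Agent.W275.FM.TorIso n A B A' B' :=
      ⟨f, h1, h2, fun σ P hP => h3 σ (by rw [IntermediateField.fixingSubgroup_bot]; exact Subgroup.mem_top _) P hP⟩
    have hbad := Pool.Agent.TH4.FZ.key_bad x1 hn h0' hT
    exact d1 (hbad.2.2 _ _ (Pool.Agent.TH4.FZ.Mdl.self A' B'))
  · intro L hL l hl hl3 hlL n hln hC
    by_cases hq : q₁ = l
    · exact Pool.Agent.TH894.NJ.no_iso A B A' B' q₂ l n x2 d2 hl hl3 (by omega) hln L.fixingSubgroup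
        (fun σ => Pool.Agent.TH894.NJ.pigeon L l hlL σ) hC
    · exact Pool.Agent.TH894.NJ.no_iso A B A' B' q₁ l n x1 d1 hl hl3 hq hln L.fixingSubgroup
        (fun σ => Pool.Agent.TH894.NJ.pigeon L l hlL σ) hC

lemma eval_dsc {r : ℕ} (A B : MvPolynomial (Fin r) ℤ) (v : Fin r → ℤ) :
    eval v (4 * A ^ 3 + 27 * B ^ 2) = Pool.Agent.W275.FM.dsc (eval v A) (eval v B) := by
  unfold Pool.Agent.W275.FM.dsc
  simp only [map_add, map_mul, map_pow, map_ofNat]

/-- **Theorem.** (1) Let the discriminant of `y² = x³ + A(v) x + B(v)` have many exact prime divisors in the mean. All but `ε |t|`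
of the members `v = c₀ + y_i` of every family of vectors of residues modulo `q ≥ q₀` with Fourier coefficients at most
`q ^ (-β) |t|` are good: the curve has no congruences with curves of discriminant up to `q ^ η`, and with at most the
proportion `q ^ (-η)` of the members of a second such family, uniformly in the second family.
(2) Examples of families: short linear recurrences. (3) Examples of families: the first powers of fixed integers, modulo all
but `C X ^ ε` of the primes `m ≤ X`. (4) The family `y² = x³ + v₁ x + v₂` of all curves has many exact prime divisors in the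
mean, and (5) so have all one-parameter families with an `I₁` fibre. -/
theorem result :
    (∀ (r : ℕ) (A B : MvPolynomial (Fin r) ℤ), MeanExact (4 * A ^ 3 + 27 * B ^ 2) →
      ∀ (r' d : ℕ) (β β' ε : ℝ), 0 < β → 0 < β' → 0 < ε → ∃ (η : ℝ) (q₀ : ℕ), 0 < η ∧
      ∀ (q : ℕ) [NeZero q], q₀ ≤ q → ∀ (τ : Type) (t : Finset τ) (y : τ → Fin r → ZMod q),
        Flat q ((q : ℝ) ^ (-β)) t y → ∀ c₀ : Fin r → ℤ,
        ({i : τ | i ∈ t ∧ ¬ Good r' d β' η q (eval (vec y c₀ i) A) (eval (vec y c₀ i) B)}.ncard : ℝ) ≤ ε * t.card) ∧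
    (∀ (k : ℕ) (ε : ℝ), 0 < ε → ∃ β : ℝ, 0 < β ∧ ∃ m₀ : ℕ, ∀ (m : ℕ) [Fact m.Prime], m₀ ≤ m →
      ∀ (ι : Type) [Fintype ι] (c : ι → Fin k → ZMod m) (g : Fin k → (ZMod m)ˣ) (N : ℕ), LinearIndependent (ZMod m) c →
      (∀ i, (m : ℝ) ^ ε ≤ orderOf (g i)) → (∀ i j, i ≠ j → (m : ℝ) ^ ε ≤ orderOf (g i / g j)) → (m : ℝ) ^ ε ≤ N →
      Flat m ((m : ℝ) ^ (-β)) (Finset.range N) (fun n j => ∑ i, c j i * (g i : ZMod m) ^ n)) ∧
    (∀ (ι : Type) [Fintype ι] (ε : ℝ), 0 < ε → ∃ β : ℝ, 0 < β ∧ ∀ b : ι → ℕ, (∀ j, 2 ≤ b j) → Function.Injective b →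
      ∃ C : ℝ, ∀ X : ℕ, 1 ≤ X → ∀ Q : Finset ℕ,
      (∀ m ∈ Q, m ≤ X ∧ ∃ _ : Fact m.Prime, ¬ ∀ N : ℕ, (m : ℝ) ^ ε ≤ N → ∀ x : ι → ZMod m, (∀ j, x j ≠ 0) →
        Flat m ((m : ℝ) ^ (-β)) (Finset.range N) (fun n j => x j * (b j : ZMod m) ^ n)) →
      (Q.card : ℝ) ≤ C * (X : ℝ) ^ ε) ∧
    MeanExact (4 * X 0 ^ 3 + 27 * X 1 ^ 2 : MvPolynomial (Fin 2) ℤ) ∧
    (∀ A B P : Polynomial ℤ, Irreducible P → 0 < P.natDegree → P ∣ 4 * A ^ 3 + 27 * B ^ 2 →
      ¬ P ^ 2 ∣ 4 * A ^ 3 + 27 * B ^ 2 →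
      MeanExact (4 * Polynomial.aeval (X 0) A ^ 3 + 27 * Polynomial.aeval (X 0) B ^ 2 : MvPolynomial (Fin 1) ℤ)) := by
  refine ⟨fun r A B hM r' d β β' ε hβ hβ' hε => ?_, fun k ε hε => Pool.Agent.Run7.h823.WF.flat_rec' k hε,
    fun ι _ ε hε => Pool.Agent.Run7.h823.WF.flat_pow' ι hε, Run7.h795.RV.meanExact_two,
    fun A B P => Run7.h795.RV.meanExact_one A B P⟩
  obtain ⟨δ, C, y₀, hδ, hmass⟩ := Run7.h795.RV.mass hM
  obtain ⟨η, hη, q₀, h⟩ := Run7.h795.RV.pairs _ hδ hmass r' d hβ hβ' ε hε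
  refine ⟨η, q₀, hη, fun q _ hq τ t y hf c₀ => ?_⟩
  refine (Run7.h795.RV.ncard_mono fun i _ hn hP => hn ?_).trans (h τ q hq t y c₀ hf)
  obtain ⟨q₁, q₂, hlt, p1, p2, m1, m2, f1, f2⟩ := hP
  have hex : ∀ p : ℕ, p.Prime → 5 ≤ p ∧ Pool.Agent.Y722.HS.red (p ^ 2) (vec y c₀ i) ∈
      Run7.h795.RV.Om (4 * A ^ 3 + 27 * B ^ 2) p →
      Pool.Agent.W275.FM.Ex p (eval (vec y c₀ i) A) (eval (vec y c₀ i) B) := by
    rintro p hp ⟨h5, hm⟩
    rw [Run7.h795.RV.mem_Om _ hp.pos, eval_dsc] at hm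
    exact ⟨hp, h5, hm.1, hm.2⟩
  have x1 := hex q₁ p1 m1
  have x2 := hex q₂ p2 m2
  refine ⟨fun a' b' h0 hle => no_congruence hlt x1 x2 (f1.1 _ h0 hle) (f2.1 _ h0 hle),
    fun A' B' hd hm q' _ hqq τ' t' y' hf' c₀' => ?_⟩
  have k1 := f1.2 _ hd hm τ' q' hqq t' y' c₀' hf'
  have k2 := f2.2 _ hd hm τ' q' hqq t' y' c₀' hf'
  have hfin : ∀ Q : τ' → Prop, {k : τ' | k ∈ t' ∧ Q k}.Finite := fun Q =>
    (Finset.finite_toSet t').subset fun k hk => hk.1
  have hsub : {k : τ' | k ∈ t' ∧ ¬ NoCongruence (eval (vec y c₀ i) A) (eval (vec y c₀ i) B)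
        (eval (vec y' c₀' k) A') (eval (vec y' c₀' k) B')} ⊆
      {k : τ' | k ∈ t' ∧ (q₁ : ℤ) ∣ eval (vec y' c₀' k) (4 * A' ^ 3 + 27 * B' ^ 2)} ∪
      {k : τ' | k ∈ t' ∧ (q₂ : ℤ) ∣ eval (vec y' c₀' k) (4 * A' ^ 3 + 27 * B' ^ 2)} := by
    rintro k ⟨hk, hk'⟩
    by_contra hcon
    rw [Set.mem_union, not_or] at hcon
    refine hk' (no_congruence hlt x1 x2 (fun h3 => hcon.1 ⟨hk, ?_⟩) (fun h3 => hcon.2 ⟨hk, ?_⟩))
    · rw [eval_dsc]; exact h3
    · rw [eval_dsc]; exact h3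
  have h4 := (Set.ncard_le_ncard hsub ((hfin _).union (hfin _))).trans (Set.ncard_union_le _ _)
  have h5 : ({k : τ' | k ∈ t' ∧ ¬ NoCongruence (eval (vec y c₀ i) A) (eval (vec y c₀ i) B)
        (eval (vec y' c₀' k) A') (eval (vec y' c₀' k) B')}.ncard : ℝ) ≤
      ({k : τ' | k ∈ t' ∧ (q₁ : ℤ) ∣ eval (vec y' c₀' k) (4 * A' ^ 3 + 27 * B' ^ 2)}.ncard : ℝ) +
      ({k : τ' | k ∈ t' ∧ (q₂ : ℤ) ∣ eval (vec y' c₀' k) (4 * A' ^ 3 + 27 * B' ^ 2)}.ncard : ℝ) := by
    exact_mod_cast h4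
  have k1' : ({k : τ' | k ∈ t' ∧ (q₁ : ℤ) ∣ eval (vec y' c₀' k) (4 * A' ^ 3 + 27 * B' ^ 2)}.ncard : ℝ) ≤
      (q : ℝ) ^ (-η) / 2 * t'.card := k1
  have k2' : ({k : τ' | k ∈ t' ∧ (q₂ : ℤ) ∣ eval (vec y' c₀' k) (4 * A' ^ 3 + 27 * B' ^ 2)}.ncard : ℝ) ≤
      (q : ℝ) ^ (-η) / 2 * t'.card := k2
  refine h5.trans ((add_le_add k1' k2').trans (le_of_eq ?_))
  ring

end Pool.Agent.Results.MP_f5d5f4_nt.ResidueVectors
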